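import Mathlib
import Pool.Agent.R61.TotList

/-!
# Attaching vertices of small degree to a (p,1)-total labelling
-/

set_option autoImplicit false
set_option linter.all false

namespace Pool.Agent.U605.TL

open Finset Pool.Agent.TH559.LE Pool.Agent.R61.TotExt

variable {V : Type}

/-- The labels `a` and `b` differ by at least `p`. -/
def far (p a b : ℕ) : Prop := a + p ≤ b ∨ b + p ≤ a

/-- the labels near `a` -/
def ball (p a : ℕ) : Finset ℕ := Finset.Icc (a + 1 - p) (a + p - 1)

theorem card_ball {p : ℕ} (hp : 1 ≤ p) (a : ℕ) : (ball p a).card + 1 ≤ 2 * p := by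
  unfold ball
  rw [Nat.card_Icc]
  omega

theorem mem_ball {p : ℕ} (hp : 1 ≤ p) (a b : ℕ) : b ∈ ball p a ↔ ¬ far p a b := by
  unfold ball far
  rw [Finset.mem_Icc]
  omega

theorem far_comm {p a b : ℕ} : far p a b ↔ far p b a := by
  unfold far
  tauto

/-- the number of neighbours in `P` -/
noncomputable def nin (G : SimpleGraph V) (P : V → Prop) (v : V) : ℕ := {w | G.Adj v w ∧ P w}.ncard

theorem nin_le [Fintype V] (G : SimpleGraph V) (P : V → Prop) (v : V) : nin G P v ≤ dg G v :=
  Set.ncard_le_ncard (fun w hw => hw.1) (Set.toFinite _)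

/-- The three stages of the extension of a list edge colouring of `E0`. -/
theorem stages [Fintype V] (G E0 : SimpleGraph V) (hE0 : E0 ≤ G) (W D : V → Prop)
    (hW : ∀ u v, G.Adj u v → W u → W v → E0.Adj u v)
    (hD : ∀ u v, E0.Adj u v → ¬ W u → D u)
    (L : Sym2 V → Finset ℕ) (c : Sym2 V → ℕ) (hc : Ok E0 L c)
    (h1 : ∀ x y, G.Adj x y → ¬ E0.Adj x y → ¬ W x → D x → W y →
      nin G W x + nin E0 (fun w => ¬ W w) x + (nin G W y + nin G (fun w => ¬ W w ∧ D w) y) ≤
        (L s(x, y)).card + 1)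
    (h2 : ∀ x y, G.Adj x y → ¬ E0.Adj x y → ¬ W x → ¬ D x → W y →
      dg G y ≤ (L s(x, y)).card ∧
      nin G W x + (nin G W y + nin G (fun w => ¬ W w ∧ D w) y) ≤ (L s(x, y)).card)
    (h3 : ∀ x y, G.Adj x y → ¬ E0.Adj x y → ¬ W x → ¬ W y →
      dg G x + dg G y ≤ (L s(x, y)).card + 1) : ∃ c', Ok G L c' := by
  classical
  let A1 : SimpleGraph V :=
    { Adj := fun a b => E0.Adj a b ∨ (G.Adj a b ∧ ((W a ∧ ¬ W b ∧ D b) ∨ (W b ∧ ¬ W a ∧ D a)))
      symm := ⟨fun a b h => by
        rcases h with h | ⟨h, h'⟩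
        · exact Or.inl h.symm
        · exact Or.inr ⟨h.symm, h'.symm⟩⟩
      loopless := ⟨fun a h => by
        rcases h with h | ⟨h, h'⟩
        · exact E0.loopless.irrefl a h
        · exact G.loopless.irrefl a h⟩ }
  have hA1 : ∀ a b, A1.Adj a b ↔ E0.Adj a b ∨
      (G.Adj a b ∧ ((W a ∧ ¬ W b ∧ D b) ∨ (W b ∧ ¬ W a ∧ D a))) := fun _ _ => Iff.rfl
  let A2 : SimpleGraph V :=
    { Adj := fun a b => E0.Adj a b ∨ (G.Adj a b ∧ ((W a ∧ ¬ W b) ∨ (W b ∧ ¬ W a)))
      symm := ⟨fun a b h => by
        rcases h with h | ⟨h, h'⟩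
        · exact Or.inl h.symm
        · exact Or.inr ⟨h.symm, h'.symm⟩⟩
      loopless := ⟨fun a h => by
        rcases h with h | ⟨h, h'⟩
        · exact E0.loopless.irrefl a h
        · exact G.loopless.irrefl a h⟩ }
  have hA2 : ∀ a b, A2.Adj a b ↔ E0.Adj a b ∨
      (G.Adj a b ∧ ((W a ∧ ¬ W b) ∨ (W b ∧ ¬ W a))) := fun _ _ => Iff.rfl
  have l01 : E0 ≤ A1 := fun a b h => Or.inl h
  have l12 : A1 ≤ A2 := by
    intro a b h
    rw [hA1] at h
    rw [hA2]
    tauto
  have l2G : A2 ≤ G := by
    intro a b h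
    rw [hA2] at h
    rcases h with h | h
    · exact hE0 h
    · exact h.1
  -- degrees in `A1`
  have dA1W : ∀ y, W y → dg A1 y ≤ nin G W y + nin G (fun w => ¬ W w ∧ D w) y := by
    intro y hy
    refine le_trans (Set.ncard_le_ncard (t := {w | G.Adj y w ∧ W w} ∪
      {w | G.Adj y w ∧ (¬ W w ∧ D w)}) ?_ (Set.toFinite _)) (Set.ncard_union_le _ _)
    intro w hw
    have hw' : A1.Adj y w := hw
    rw [hA1] at hw'
    by_cases hWw : W w
    · left
      rcases hw' with h | h
      · exact ⟨hE0 h, hWw⟩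
      · exact ⟨h.1, hWw⟩
    · right
      rcases hw' with h | h
      · exact ⟨hE0 h, hWw, hD w y h.symm hWw⟩
      · refine ⟨h.1, hWw, ?_⟩
        rcases h.2 with h' | h'
        · exact h'.2.2
        · exact absurd h'.1 hWw
  have dA1S : ∀ x, ¬ W x → dg A1 x ≤ nin G W x + nin E0 (fun w => ¬ W w) x := by
    intro x hx
    refine le_trans (Set.ncard_le_ncard (t := {w | G.Adj x w ∧ W w} ∪
      {w | E0.Adj x w ∧ ¬ W w}) ?_ (Set.toFinite _)) (Set.ncard_union_le _ _)
    intro w hw
    have hw' : A1.Adj x w := hw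
    rw [hA1] at hw'
    by_cases hWw : W w
    · left
      rcases hw' with h | h
      · exact ⟨hE0 h, hWw⟩
      · exact ⟨h.1, hWw⟩
    · right
      rcases hw' with h | h
      · exact ⟨h, hWw⟩
      · rcases h.2 with h' | h'
        · exact absurd h'.1 hx
        · exact absurd h'.1 hWw
  have dA1Z : ∀ x, ¬ W x → ¬ D x → dg A1 x = 0 := by
    intro x hx hDx
    unfold dg
    rw [Set.ncard_eq_zero (Set.toFinite _), Set.eq_empty_iff_forall_notMem]
    intro w hw
    have hw' : A1.Adj x w := hw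
    rw [hA1] at hw'
    rcases hw' with h | ⟨_, h | h⟩
    · exact hDx (hD x w h hx)
    · exact hx h.1
    · exact hDx h.2.2
  have dA2S : ∀ x, ¬ W x → ¬ D x → dg A2 x ≤ nin G W x := by
    intro x hx hDx
    refine Set.ncard_le_ncard ?_ (Set.toFinite _)
    intro w hw
    have hw' : A2.Adj x w := hw
    rw [hA2] at hw'
    rcases hw' with h | ⟨h0, h | h⟩
    · exact absurd (hD x w h hx) hDx
    · exact absurd h.1 hx
    · exact ⟨h0, h.1⟩
  -- stage 1
  obtain ⟨c1, hc1⟩ : ∃ c1, Ok A1 L c1 := by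
    refine ext_greedy E0 A1 l01 L ?_ c hc
    have aux : ∀ a b, A1.Adj a b → ¬ E0.Adj a b → ¬ W a → D a → W b →
        dg A1 a + dg A1 b ≤ (L s(a, b)).card + 1 := by
      intro a b hab hn ha hDa hb
      have := h1 a b (l2G (l12 hab)) hn ha hDa hb
      have e1 := dA1W b hb
      have e2 := dA1S a ha
      omega
    intro a b hab hn
    have h' := hab
    rw [hA1] at h'
    rcases h' with h | ⟨_, h | h⟩
    · exact absurd h hn
    · have := aux b a hab.symm (fun h' => hn h'.symm) h.2.1 h.2.2 h.1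
      rw [Sym2.eq_swap] at this
      omega
    · exact aux a b hab hn h.2.1 h.2.2 h.1
  -- stage 2
  obtain ⟨c2, hc2⟩ : ∃ c2, Ok A2 L c2 := by
    refine ext A1 A2 l12 W ?_ L ?_ c1 hc1
    · intro u v huv hn
      rw [hA2] at huv
      rw [hA1] at hn
      rcases huv with h | ⟨_, h | h⟩
      · exact absurd (Or.inl h) hn
      · exact ⟨fun _ => h.2, fun _ => h.1⟩
      · exact ⟨fun h' => absurd h' h.2, fun h' => absurd h.1 h'⟩
    · intro u v huv hn
      have hG := l2G huv
      have hnE : ¬ E0.Adj u v := fun h => hn (l01 h)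
      rw [hA2] at huv
      rw [hA1] at hn
      rcases huv with h | ⟨_, h | h⟩
      · exact absurd h hnE
      · -- `u` in `W`, `v` not
        have hDv : ¬ D v := fun hd => hn (Or.inr ⟨hG, Or.inl ⟨h.1, h.2, hd⟩⟩)
        have e1 := h2 v u hG.symm (fun h' => hnE h'.symm) h.2 hDv h.1
        rw [Sym2.eq_swap] at e1
        have e2 := dA1Z v h.2 hDv
        have e3 : dg A2 u ≤ dg G u := dg_mono l2G u
        omega
      · have hDu : ¬ D u := fun hd => hn (Or.inr ⟨hG, Or.inr ⟨h.1, h.2, hd⟩⟩)
        have e1 := h2 u v hG hnE h.2 hDu h.1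
        have e2 := dA2S u h.2 hDu
        have e3 := dA1W v h.1
        omega
  -- stage 3
  refine ext_greedy A2 G l2G L ?_ c2 hc2
  intro u v huv hn
  rw [hA2] at hn
  push Not at hn
  have hu : ¬ W u := by
    intro hu
    by_cases hv : W v
    · exact hn.1 (hW u v huv hu hv)
    · exact hv ((hn.2 huv).1 hu)
  have hv : ¬ W v := by
    intro hv
    exact hu ((hn.2 huv).2 hv)
  exact h3 u v huv hn.1 hu hv

/-- Greedy extension of a vertex colouring from lists. -/
theorem vext_list [Fintype V] (G : SimpleGraph V) (f0 : V → ℕ) (P : V → Prop)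
    (hprop : ∀ u v, P u → P v → G.Adj u v → f0 u ≠ f0 v) (L : V → Finset ℕ)
    (hL : ∀ v, ¬ P v → dg G v < (L v).card) :
    ∃ f : V → ℕ, (∀ v, P v → f v = f0 v) ∧ (∀ v, ¬ P v → f v ∈ L v) ∧
      ∀ u v, G.Adj u v → f u ≠ f v := by
  classical
  have key : ∀ S : Finset V, ∃ f : V → ℕ, (∀ v, P v → f v = f0 v) ∧
      (∀ v, ¬ P v → v ∈ S → f v ∈ L v) ∧
      ∀ u v, (P u ∨ u ∈ S) → (P v ∨ v ∈ S) → G.Adj u v → f u ≠ f v := by
    intro S
    induction S using Finset.induction_on with
    | empty =>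
      refine ⟨f0, fun _ _ => rfl, fun _ _ h => absurd h (Finset.notMem_empty _), ?_⟩
      intro u v hu hv
      simp only [notMem_empty, or_false] at hu hv
      exact hprop u v hu hv
    | insert a S haS ih =>
      obtain ⟨f, h1, h0, h2⟩ := ih
      by_cases ha : P a
      · refine ⟨f, h1, ?_, ?_⟩
        · intro v hv hvS
          rcases mem_insert.1 hvS with rfl | h
          · exact absurd ha hv
          · exact h0 v hv h
        · intro u v hu hv
          apply h2
          · rcases hu with hu | hu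
            · exact Or.inl hu
            · rcases mem_insert.1 hu with rfl | hu
              · exact Or.inl ha
              · exact Or.inr hu
          · rcases hv with hv | hv
            · exact Or.inl hv
            · rcases mem_insert.1 hv with rfl | hv
              · exact Or.inl ha
              · exact Or.inr hv
      · have hcard : ((univ.filter (fun w => G.Adj a w)).image f).card < (L a).card := by
          refine lt_of_le_of_lt card_image_le ?_
          rw [← dg_eq]
          exact hL a ha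
        obtain ⟨γ, hγL, hγ⟩ := exists_mem_notMem_of_card_lt_card hcard
        have hγ' : ∀ w, G.Adj a w → f w ≠ γ := by
          intro w hw heq
          exact hγ (mem_image.2 ⟨w, by simpa using hw, heq⟩)
        refine ⟨Function.update f a γ, ?_, ?_, ?_⟩
        · intro v hv
          have hva : v ≠ a := by
            rintro rfl
            exact ha hv
          rw [Function.update_of_ne hva]
          exact h1 v hv
        · intro v hv hvS
          by_cases hva : v = a
          · subst hva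
            rw [Function.update_self]
            exact hγL
          · rw [Function.update_of_ne hva]
            rcases mem_insert.1 hvS with h | h
            · exact absurd h hva
            · exact h0 v hv h
        · intro u v hu hv huv
          by_cases hua : u = a
          · subst hua
            have hvu : v ≠ u := huv.ne'
            rw [Function.update_self, Function.update_of_ne hvu]
            exact (hγ' v huv).symm
          · by_cases hva : v = a
            · subst hva
              rw [Function.update_self, Function.update_of_ne hua]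
              exact hγ' u huv.symm
            · rw [Function.update_of_ne hua, Function.update_of_ne hva]
              refine h2 u v ?_ ?_ huv
              · rcases hu with hu | hu
                · exact Or.inl hu
                · rcases mem_insert.1 hu with h | h
                  · exact absurd h hua
                  · exact Or.inr h
              · rcases hv with hv | hv
                · exact Or.inl hv
                · rcases mem_insert.1 hv with h | h
                  · exact absurd h hva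
                  · exact Or.inr h
  obtain ⟨f, h1, h0, h2⟩ := key univ
  exact ⟨f, h1, fun v hv => h0 v hv (mem_univ v),
    fun u v huv => h2 u v (Or.inr (mem_univ u)) (Or.inr (mem_univ v)) huv⟩

open Classical in
/-- the labels allowed for an edge -/
noncomputable def lst (p : ℕ) (E0 : SimpleGraph V) (P : V → Prop) (f0 : V → ℕ) (g0 : Sym2 V → ℕ)
    (LE : Sym2 V → Finset ℕ) (e : Sym2 V) : Finset ℕ :=
  if e ∈ E0.edgeSet then {g0 e} else (LE e).filter (fun γ => ∀ u ∈ e, P u → far p (f0 u) γ)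

open Classical in
theorem mem_lst {p : ℕ} (E0 : SimpleGraph V) (P : V → Prop) (f0 : V → ℕ) (g0 : Sym2 V → ℕ)
    (LE : Sym2 V → Finset ℕ) (e : Sym2 V) (γ : ℕ) (hn : e ∉ E0.edgeSet) :
    γ ∈ lst p E0 P f0 g0 LE e ↔ γ ∈ LE e ∧ ∀ u ∈ e, P u → far p (f0 u) γ := by
  unfold lst
  rw [if_neg hn, mem_filter]

theorem lst_card {p N : ℕ} (hp : 1 ≤ p) (E0 : SimpleGraph V) (P : V → Prop) (f0 : V → ℕ)
    (g0 : Sym2 V → ℕ) (LE : Sym2 V → Finset ℕ) (x y : V) (hn : ¬ E0.Adj x y)
    (hN : N ≤ (LE s(x, y)).card) :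
    N + 2 ≤ (lst p E0 P f0 g0 LE s(x, y)).card + 4 * p ∧
    (¬ P x → N + 1 ≤ (lst p E0 P f0 g0 LE s(x, y)).card + 2 * p) ∧
    (¬ P y → N + 1 ≤ (lst p E0 P f0 g0 LE s(x, y)).card + 2 * p) := by
  classical
  have hn' : s(x, y) ∉ E0.edgeSet := hn
  have hx := card_ball hp (f0 x)
  have hy := card_ball hp (f0 y)
  unfold lst
  rw [if_neg hn']
  set Q := (LE s(x, y)).filter (fun γ => ∀ u ∈ s(x, y), P u → far p (f0 u) γ) with hQ
  refine ⟨?_, ?_, ?_⟩
  · have hsub : LE s(x, y) ⊆ (Q ∪ ball p (f0 x)) ∪ ball p (f0 y) := by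
      intro γ hγ
      rw [mem_union, mem_union, hQ, mem_filter]
      by_contra hcon
      push Not at hcon
      obtain ⟨⟨h1, h2⟩, h3⟩ := hcon
      obtain ⟨u, hu, _, hu2⟩ := h1 hγ
      rcases Sym2.mem_iff.1 hu with rfl | rfl
      · exact h2 ((mem_ball hp _ _).2 hu2)
      · exact h3 ((mem_ball hp _ _).2 hu2)
    have h1 := card_le_card hsub
    have h2 := card_union_le (Q ∪ ball p (f0 x)) (ball p (f0 y))
    have h3 := card_union_le Q (ball p (f0 x))
    omega
  · intro hPx
    have hsub : LE s(x, y) ⊆ Q ∪ ball p (f0 y) := by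
      intro γ hγ
      rw [mem_union, hQ, mem_filter]
      by_contra hcon
      push Not at hcon
      obtain ⟨h1, h3⟩ := hcon
      obtain ⟨u, hu, hu1, hu2⟩ := h1 hγ
      rcases Sym2.mem_iff.1 hu with rfl | rfl
      · exact hPx hu1
      · exact h3 ((mem_ball hp _ _).2 hu2)
    have h1 := card_le_card hsub
    have h3 := card_union_le Q (ball p (f0 y))
    omega
  · intro hPy
    have hsub : LE s(x, y) ⊆ Q ∪ ball p (f0 x) := by
      intro γ hγ
      rw [mem_union, hQ, mem_filter]
      by_contra hcon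
      push Not at hcon
      obtain ⟨h1, h3⟩ := hcon
      obtain ⟨u, hu, hu1, hu2⟩ := h1 hγ
      rcases Sym2.mem_iff.1 hu with rfl | rfl
      · exact h3 ((mem_ball hp _ _).2 hu2)
      · exact hPy hu1
    have h1 := card_le_card hsub
    have h3 := card_union_le Q (ball p (f0 x))
    omega

/-- The extension theorem. `W` and `D` are the prelabelled vertices, `E0` the prelabelled edges. -/
theorem attach [Fintype V] {p N : ℕ} (hp : 1 ≤ p) (G E0 : SimpleGraph V) (hE0 : E0 ≤ G)
    (W D : V → Prop)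
    (hW : ∀ u v, G.Adj u v → W u → W v → E0.Adj u v)
    (hD : ∀ u v, E0.Adj u v → ¬ W u → D u)
    (hDD : ∀ u v, G.Adj u v → D u → D v → E0.Adj u v)
    (hmat : ∀ u, ¬ W u → nin E0 (fun w => ¬ W w) u ≤ 1)
    (LV : V → Finset ℕ) (LE : Sym2 V → Finset ℕ)
    (hLV : ∀ v, ¬ W v → ¬ D v → N ≤ (LV v).card)
    (hLE : ∀ u v, G.Adj u v → ¬ E0.Adj u v → N ≤ (LE s(u, v)).card)
    (f0 : V → ℕ) (g0 : Sym2 V → ℕ)
    (hv : ∀ u v, (W u ∨ D u) → (W v ∨ D v) → G.Adj u v → f0 u ≠ f0 v)
    (he : ∀ u v w, E0.Adj u v → E0.Adj u w → v ≠ w → g0 s(u, v) ≠ g0 s(u, w))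
    (hi : ∀ u v, E0.Adj u v → far p (f0 u) (g0 s(u, v)))
    (ha : ∀ x, ¬ W x → 2 * p * dg G x < N)
    (hb : ∀ x y, G.Adj x y → ¬ W x → ¬ D x → W y →
      nin G W x + nin G W y + nin G (fun w => ¬ W w ∧ D w) y + 2 * p ≤ N + 1 ∧
      dg G y + 2 * p ≤ N + 1)
    (hbD : ∀ x y, G.Adj x y → ¬ E0.Adj x y → ¬ W x → D x → W y →
      nin G W x + nin G W y + nin G (fun w => ¬ W w ∧ D w) y + 4 * p ≤ N + 2) :
    ∃ (f : V → ℕ) (g : Sym2 V → ℕ),
      (∀ u v, G.Adj u v → f u ≠ f v) ∧
      (∀ u v w, G.Adj u v → G.Adj u w → v ≠ w → g s(u, v) ≠ g s(u, w)) ∧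
      (∀ u v, G.Adj u v → far p (f u) (g s(u, v))) ∧
      (∀ v, (W v ∨ D v) → f v = f0 v) ∧
      (∀ u v, E0.Adj u v → g s(u, v) = g0 s(u, v)) ∧
      (∀ v, ¬ W v → ¬ D v → f v ∈ LV v) ∧
      (∀ u v, G.Adj u v → ¬ E0.Adj u v → g s(u, v) ∈ LE s(u, v)) := by
  classical
  set P : V → Prop := fun v => W v ∨ D v with hP
  have hdeg : ∀ u v, G.Adj u v → 1 ≤ dg G u := by
    intro u v huv
    unfold dg
    rw [Nat.one_le_iff_ne_zero, Ne, Set.ncard_eq_zero (Set.toFinite _), ← Ne,
      ← Set.nonempty_iff_ne_empty]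
    exact ⟨v, huv⟩
  have hOk0 : Ok E0 (lst p E0 P f0 g0 LE) g0 := by
    refine ⟨?_, he⟩
    intro u v huv
    have : s(u, v) ∈ E0.edgeSet := huv
    unfold lst
    rw [if_pos this]
    exact mem_singleton_self _
  obtain ⟨g, hg1, hg2⟩ := stages G E0 hE0 W D hW hD (lst p E0 P f0 g0 LE) g0 hOk0
    (by
      intro x y hxy hn hx hDx hy
      have h1 := (lst_card hp E0 P f0 g0 LE x y hn (hLE x y hxy hn)).1
      have h2 := hbD x y hxy hn hx hDx hy
      have h3 := hmat x hx
      omega)
    (by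
      intro x y hxy hn hx hDx hy
      have h1 := (lst_card hp E0 P f0 g0 LE x y hn (hLE x y hxy hn)).2.1
        (by
          rintro (h | h)
          · exact hx h
          · exact hDx h)
      have h2 := hb x y hxy hx hDx hy
      omega)
    (by
      intro x y hxy hn hx hy
      have h0 : ¬ P x ∨ ¬ P y := by
        by_contra hcon
        push Not at hcon
        obtain ⟨h1 | h1, h2 | h2⟩ := hcon
        · exact hx h1
        · exact hx h1
        · exact hy h2
        · exact hn (hDD x y hxy h1 h2)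
      have h1 := lst_card hp E0 P f0 g0 LE x y hn (hLE x y hxy hn)
      have h2 : N + 1 ≤ (lst p E0 P f0 g0 LE s(x, y)).card + 2 * p := by
        rcases h0 with h | h
        · exact h1.2.1 h
        · exact h1.2.2 h
      have h3 := ha x hx
      have h4 := ha y hy
      have h5 := hdeg x y hxy
      have h6 := hdeg y x hxy.symm
      have h7 : dg G x + dg G y + 2 * p ≤ N + 1 := by
        obtain ⟨q, rfl⟩ : ∃ q, p = q + 1 := ⟨p - 1, by omega⟩
        obtain ⟨a, ha'⟩ : ∃ a, dg G x = a + 1 := ⟨dg G x - 1, by omega⟩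
        obtain ⟨b, hb'⟩ : ∃ b, dg G y = b + 1 := ⟨dg G y - 1, by omega⟩
        rw [ha'] at h3 ⊢
        rw [hb'] at h4 ⊢
        nlinarith [Nat.zero_le (q * a), Nat.zero_le (q * b)]
      omega)
  have hgE : ∀ u v, E0.Adj u v → g s(u, v) = g0 s(u, v) := by
    intro u v huv
    have h1 := hg1 u v (hE0 huv)
    have h2 : s(u, v) ∈ E0.edgeSet := huv
    unfold lst at h1
    rw [if_pos h2] at h1
    exact mem_singleton.1 h1
  have hgL : ∀ u v, G.Adj u v → ¬ E0.Adj u v → g s(u, v) ∈ LE s(u, v) ∧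
      (P u → far p (f0 u) (g s(u, v))) := by
    intro u v huv hn
    have h1 := hg1 u v huv
    have h2 : s(u, v) ∉ E0.edgeSet := hn
    rw [mem_lst E0 P f0 g0 LE _ _ h2] at h1
    exact ⟨h1.1, fun hu => h1.2 u (Sym2.mem_mk_left _ _) hu⟩
  -- the vertices
  set F : V → Finset ℕ := fun v => (univ.filter (fun w => G.Adj v w)).biUnion
    (fun w => ball p (g s(v, w))) with hF
  have hFc : ∀ v, (F v).card + dg G v ≤ 2 * p * dg G v := by
    intro v
    have h1 : (F v).card ≤ ∑ w ∈ univ.filter (fun w => G.Adj v w), (2 * p - 1) := by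
      refine card_biUnion_le.trans (sum_le_sum ?_)
      intro w _
      have := card_ball hp (g s(v, w))
      omega
    rw [sum_const, ← dg_eq, smul_eq_mul] at h1
    obtain ⟨q, rfl⟩ : ∃ q, p = q + 1 := ⟨p - 1, by omega⟩
    have h2 : 2 * (q + 1) - 1 = 2 * q + 1 := by omega
    rw [h2] at h1
    nlinarith
  obtain ⟨f, hf1, hf2, hf3⟩ := vext_list G f0 P hv (fun v => LV v \ F v) (by
    intro v hPv
    have h1 := hFc v
    have hWv : ¬ W v := fun h => hPv (Or.inl h)
    have h2 := ha v hWv
    have h3 := hLV v hWv (fun h => hPv (Or.inr h))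
    have h4 := Finset.le_card_sdiff (F v) (LV v)
    omega)
  refine ⟨f, g, hf3, hg2, ?_, hf1, hgE, ?_, fun u v huv hn => (hgL u v huv hn).1⟩
  · intro u v huv
    by_cases hPu : P u
    · rw [hf1 u hPu]
      by_cases hE : E0.Adj u v
      · rw [hgE u v hE]
        exact hi u v hE
      · exact (hgL u v huv hE).2 hPu
    · have h1 := hf2 u hPu
      rw [mem_sdiff] at h1
      rw [far_comm]
      by_contra hcon
      apply h1.2
      rw [hF, mem_biUnion]
      exact ⟨v, by simpa using huv, (mem_ball hp _ _).2 hcon⟩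
  · intro v hWv hDv
    have h1 := hf2 v (by
      rintro (h | h)
      · exact hWv h
      · exact hDv h)
    rw [mem_sdiff] at h1
    exact h1.1

end Pool.Agent.U605.TL
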