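import Mathlib
import Pool.Agent.U605.TL.Core
import Pool.Agent.N577.DT.C
import Pool.Agent.N577.DT.D

/-!
# Extending a prelabelled distance-3 matching when vertices of large degree have many neighbours of
small degree
-/

set_option autoImplicit false
set_option linter.all false

namespace Pool.Agent.U605.TL

open Finset Pool.Agent.TH559.LE

variable {V : Type}

/-- the edges inside `W` outside the matching -/
def ins (G H : SimpleGraph V) (W : V → Prop) : SimpleGraph V where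
  Adj a b := G.Adj a b ∧ W a ∧ W b ∧ ¬ H.Adj a b
  symm := ⟨fun a b h => ⟨h.1.symm, h.2.2.1, h.2.1, fun h' => h.2.2.2 h'.symm⟩⟩
  loopless := ⟨fun a h => G.loopless.irrefl a h.1⟩

theorem ins_adj (G H : SimpleGraph V) (W : V → Prop) (a b : V) :
    (ins G H W).Adj a b ↔ G.Adj a b ∧ W a ∧ W b ∧ ¬ H.Adj a b := Iff.rfl

/-- the prelabelled edges -/
def pre (G H : SimpleGraph V) (W : V → Prop) (hHG : H ≤ G) : SimpleGraph V where
  Adj a b := H.Adj a b ∨ (G.Adj a b ∧ W a ∧ W b)
  symm := ⟨fun a b h => by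
    rcases h with h | h
    · exact Or.inl h.symm
    · exact Or.inr ⟨h.1.symm, h.2.2, h.2.1⟩⟩
  loopless := ⟨fun a h => by
    rcases h with h | h
    · exact H.loopless.irrefl a h
    · exact G.loopless.irrefl a h.1⟩

theorem pre_adj (G H : SimpleGraph V) (W : V → Prop) (hHG : H ≤ G) (a b : V) :
    (pre G H W hHG).Adj a b ↔ H.Adj a b ∨ (G.Adj a b ∧ W a ∧ W b) := Iff.rfl

/-- list colourings of pairs as functions on edges -/
theorem of_LC (Γ : SimpleGraph V) (L : V → V → Finset ℕ) (h : Pool.Agent.H162R2.Sparse.LC Γ L) :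
    ∃ g : Sym2 V → ℕ, (∀ u v, Γ.Adj u v → g s(u, v) ∈ L u v) ∧
      ∀ u v w, Γ.Adj u v → Γ.Adj u w → v ≠ w → g s(u, v) ≠ g s(u, w) := by
  classical
  obtain ⟨f, h1, h2, h3⟩ := h
  let g : Sym2 V → ℕ := fun e => if h : ∃ q : V × V, Γ.Adj q.1 q.2 ∧ e = s(q.1, q.2) then
    f h.choose.1 h.choose.2 else 0
  have hg : ∀ u v, Γ.Adj u v → g s(u, v) = f u v := by
    intro u v huv
    have h : ∃ q : V × V, Γ.Adj q.1 q.2 ∧ s(u, v) = s(q.1, q.2) := ⟨(u, v), huv, rfl⟩
    show (if h : ∃ q : V × V, Γ.Adj q.1 q.2 ∧ s(u, v) = s(q.1, q.2) then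
      f h.choose.1 h.choose.2 else 0) = _
    rw [dif_pos h]
    have h4 := h.choose_spec
    rcases Sym2.eq_iff.1 h4.2 with ⟨e1, e2⟩ | ⟨e1, e2⟩
    · rw [← e1, ← e2]
    · rw [← e1, ← e2]
      exact (h1 u v huv).symm
  refine ⟨g, ?_, ?_⟩
  · intro u v huv
    rw [hg u v huv]
    exact h2 u v huv
  · intro u v w huv huw hvw
    rw [hg u v huv, hg u w huw]
    exact h3 u v w huv huw hvw

/-- The extension of a prelabelled matching, when the edges inside `W` can be labelled. -/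
theorem fin [Fintype V] {p N : ℕ} (hp : 1 ≤ p) (G H : SimpleGraph V) (hHG : H ≤ G)
    (hmatch : ∀ u v w, H.Adj u v → H.Adj u w → v = w)
    (hDD : ∀ u v, G.Adj u v → (∃ x, H.Adj u x) → (∃ y, H.Adj v y) → H.Adj u v)
    (htwo : ∀ v, nin G (fun w => ∃ x, H.Adj w x) v ≤ 2)
    (W : V → Prop) (LV : V → Finset ℕ) (LE : Sym2 V → Finset ℕ)
    (hLV : ∀ v, (¬ ∃ x, H.Adj v x) → N ≤ (LV v).card)
    (hLE : ∀ u v, G.Adj u v → ¬ H.Adj u v → N ≤ (LE s(u, v)).card)
    (hdeg : ∀ v, dg G v < N)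
    (f0 : V → ℕ) (g0 : Sym2 V → ℕ)
    (hv : ∀ u v, H.Adj u v → f0 u ≠ f0 v)
    (hi : ∀ u v, H.Adj u v → far p (f0 u) (g0 s(u, v)))
    (ha : ∀ x, ¬ W x → 2 * p * dg G x < N)
    (hb : ∀ x y, G.Adj x y → ¬ W x → W y →
      nin G W x + nin G W y + 4 * p ≤ N ∧ dg G y + 2 * p ≤ N + 1)
    (key : ∀ Z : V → Finset ℕ, (∀ v, (Z v).card ≤ 2 * p) →
      Pool.Agent.H162R2.Sparse.LC (ins G H W) (fun u v => LE s(u, v) \ (Z u ∪ Z v))) :
    ∃ (f : V → ℕ) (g : Sym2 V → ℕ),
      (∀ u v, G.Adj u v → f u ≠ f v) ∧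
      (∀ u v w, G.Adj u v → G.Adj u w → v ≠ w → g s(u, v) ≠ g s(u, w)) ∧
      (∀ u v, G.Adj u v → far p (f u) (g s(u, v))) ∧
      (∀ v, (∃ x, H.Adj v x) → f v = f0 v) ∧
      (∀ u v, H.Adj u v → g s(u, v) = g0 s(u, v)) ∧
      (∀ v, (¬ ∃ x, H.Adj v x) → f v ∈ LV v) ∧
      (∀ u v, G.Adj u v → ¬ H.Adj u v → g s(u, v) ∈ LE s(u, v)) := by
  classical
  set D : V → Prop := fun v => ∃ x, H.Adj v x with hD
  -- labels of the vertices in `W`
  obtain ⟨f1, hf1, hf2, hf3⟩ := vext_list G f0 D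
    (fun u v hu hv' huv => hv u v (hDD u v huv hu hv')) LV
    (fun v hv' => lt_of_lt_of_le (hdeg v) (hLV v hv'))
  -- labels of the edges in `W`
  let Z : V → Finset ℕ := fun v => ball p (f1 v) ∪
    (univ.filter (fun x => H.Adj v x)).image (fun x => g0 s(v, x))
  have hZ : ∀ v, (Z v).card ≤ 2 * p := by
    intro v
    have h1 := card_ball hp (f1 v)
    have h2 : ((univ.filter (fun x => H.Adj v x)).image (fun x => g0 s(v, x))).card ≤ 1 := by
      refine card_image_le.trans ?_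
      rw [card_le_one]
      intro a ha' b hb'
      rw [mem_filter] at ha' hb'
      exact hmatch v a b ha'.2 hb'.2
    have h3 := card_union_le (ball p (f1 v))
      ((univ.filter (fun x => H.Adj v x)).image (fun x => g0 s(v, x)))
    show (ball p (f1 v) ∪ _).card ≤ _
    omega
  obtain ⟨g1, hg1, hg2⟩ := of_LC _ _ (key Z hZ)
  have hg3 : ∀ u v, (ins G H W).Adj u v → g1 s(u, v) ∈ LE s(u, v) ∧ far p (f1 u) (g1 s(u, v)) ∧
      ∀ x, H.Adj u x → g1 s(u, v) ≠ g0 s(u, x) := by
    intro u v huv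
    have h1 := hg1 u v huv
    rw [mem_sdiff, mem_union, not_or] at h1
    obtain ⟨h2, h3, -⟩ := h1
    have h4 : g1 s(u, v) ∉ ball p (f1 u) ∪
      (univ.filter (fun x => H.Adj u x)).image (fun x => g0 s(u, x)) := h3
    rw [mem_union, not_or] at h4
    refine ⟨h2, ?_, ?_⟩
    · by_contra hcon
      exact h4.1 ((mem_ball hp _ _).2 hcon)
    · intro x hx heq
      exact h4.2 (mem_image.2 ⟨x, by simpa using hx, heq.symm⟩)
  let g2 : Sym2 V → ℕ := fun e => if e ∈ H.edgeSet then g0 e else g1 e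
  have hg2H : ∀ u v, H.Adj u v → g2 s(u, v) = g0 s(u, v) := by
    intro u v huv
    have : s(u, v) ∈ H.edgeSet := huv
    show (if s(u, v) ∈ H.edgeSet then g0 s(u, v) else g1 s(u, v)) = _
    rw [if_pos this]
  have hg2N : ∀ u v, ¬ H.Adj u v → g2 s(u, v) = g1 s(u, v) := by
    intro u v huv
    have : s(u, v) ∉ H.edgeSet := huv
    show (if s(u, v) ∈ H.edgeSet then g0 s(u, v) else g1 s(u, v)) = _
    rw [if_neg this]
  have hr2 : ∀ y, nin G (fun w => ¬ W w ∧ D w) y ≤ 2 := by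
    intro y
    refine le_trans (Set.ncard_le_ncard ?_ (Set.toFinite _)) (htwo y)
    intro w hw
    exact ⟨hw.1, hw.2.2⟩
  obtain ⟨f, g, a1, a2, a3, a4, a5, a6, a7⟩ := attach hp G (pre G H W hHG)
    (by
      intro a b hab
      rw [pre_adj] at hab
      rcases hab with h | h
      · exact hHG h
      · exact h.1)
    W D
    (fun u v huv hu hv' => Or.inr ⟨huv, hu, hv'⟩)
    (by
      intro u v huv hu
      rw [pre_adj] at huv
      rcases huv with h | h
      · exact ⟨v, h⟩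
      · exact absurd h.2.1 hu)
    (fun u v huv hu hv' => Or.inl (hDD u v huv hu hv'))
    (by
      intro u hu
      unfold nin
      rw [Set.ncard_le_one (Set.toFinite _)]
      rintro a ⟨ha1, ha2⟩ b ⟨hb1, hb2⟩
      rw [pre_adj] at ha1 hb1
      have h1 : H.Adj u a := by
        rcases ha1 with h | h
        · exact h
        · exact absurd h.2.1 hu
      have h2 : H.Adj u b := by
        rcases hb1 with h | h
        · exact h
        · exact absurd h.2.1 hu
      exact hmatch u a b h1 h2)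
    LV LE
    (fun v _ hv' => hLV v hv')
    (by
      intro u v huv hn
      exact hLE u v huv (fun h => hn (Or.inl h)))
    f1 g2
    (fun u v _ _ huv => hf3 u v huv)
    (by
      intro u v w huv huw hvw
      rw [pre_adj] at huv huw
      by_cases h1 : H.Adj u v
      · by_cases h2 : H.Adj u w
        · exact absurd (hmatch u v w h1 h2) hvw
        · have h3 := huw.resolve_left h2
          rw [hg2H u v h1, hg2N u w h2]
          exact ((hg3 u w ⟨h3.1, h3.2.1, h3.2.2, h2⟩).2.2 v h1).symm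
      · have h3 := huv.resolve_left h1
        by_cases h2 : H.Adj u w
        · rw [hg2N u v h1, hg2H u w h2]
          exact (hg3 u v ⟨h3.1, h3.2.1, h3.2.2, h1⟩).2.2 w h2
        · have h4 := huw.resolve_left h2
          rw [hg2N u v h1, hg2N u w h2]
          exact hg2 u v w ⟨h3.1, h3.2.1, h3.2.2, h1⟩ ⟨h4.1, h4.2.1, h4.2.2, h2⟩ hvw)
    (by
      intro u v huv
      rw [pre_adj] at huv
      by_cases h1 : H.Adj u v
      · rw [hg2H u v h1, hf1 u ⟨v, h1⟩]
        exact hi u v h1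
      · have h3 := huv.resolve_left h1
        rw [hg2N u v h1]
        exact (hg3 u v ⟨h3.1, h3.2.1, h3.2.2, h1⟩).2.1)
    ha
    (by
      intro x y hxy hx _ hy
      have h1 := hb x y hxy hx hy
      have h2 := hr2 y
      omega)
    (by
      intro x y hxy _ hx _ hy
      have h1 := hb x y hxy hx hy
      have h2 := hr2 y
      omega)
  refine ⟨f, g, a1, a2, a3, ?_, ?_, ?_, ?_⟩
  · intro v hv'
    rw [a4 v (Or.inr hv'), hf1 v hv']
  · intro u v huv
    rw [a5 u v (Or.inl huv), hg2H u v huv]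
  · intro v hv'
    by_cases hWv : W v
    · rw [a4 v (Or.inl hWv)]
      exact hf2 v hv'
    · exact a6 v hWv hv'
  · intro u v huv hn
    by_cases hE : (pre G H W hHG).Adj u v
    · rw [a5 u v hE, hg2N u v hn]
      rw [pre_adj] at hE
      have h3 := hE.resolve_left hn
      exact (hg3 u v ⟨h3.1, h3.2.1, h3.2.2, hn⟩).1
    · exact a7 u v huv hE

/-- degrees inside -/
theorem ins_deg [Fintype V] (G H : SimpleGraph V) (W : V → Prop) (d : ℕ)
    (hd : ∀ y, W y → nin G W y ≤ d) (v : V) :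
    Pool.Agent.H162R2.Sparse.dg (ins G H W) v ≤ d := by
  classical
  have h1 : Pool.Agent.H162R2.Sparse.dg (ins G H W) v = ((ins G H W).neighborSet v).ncard := by
    unfold Pool.Agent.H162R2.Sparse.dg Pool.Agent.H162R2.Sparse.nb
    rw [← Set.ncard_coe_finset]
    congr 1
    ext w
    simp
  rw [h1]
  by_cases hv : W v
  · refine le_trans (Set.ncard_le_ncard ?_ (Set.toFinite _)) (hd v hv)
    intro w hw
    exact ⟨hw.1, hw.2.2.1⟩
  · have h2 : (ins G H W).neighborSet v = ∅ := by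
      rw [Set.eq_empty_iff_forall_notMem]
      intro w hw
      exact hv hw.2.1
    rw [h2, Set.ncard_empty]
    exact Nat.zero_le _

end Pool.Agent.U605.TL
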